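import Pool.Agent.W4.CF.Stms3
import Pool.Agent.W636.CF.B

/-!
Project CD, part BQ: property (B) for a product of a linear and an irreducible quadratic form.
-/

set_option autoImplicit false

namespace Pool.Agent.W131.CD

open NumberField Finset Pool.Agent.W4.CF Pool.Agent.W4.CF.PB

variable {K : Type} [Field K] [NumberField K]

lemma card_emb2 (hd : Module.finrank ℚ K = 2) : (Finset.univ : Finset (K →+* ℂ)).card = 2 := by
  rw [Finset.card_univ, NumberField.Embeddings.card, hd]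

/-- algebraic part -/
lemma alg2 (hd : Module.finrank ℚ K = 2) {ξ : 𝓞 K} {c z k : ℕ} (hc : 1 ≤ c)
    (I J : Ideal (𝓞 K)) (hI : Ideal.absNorm I = c) (hJ : Ideal.absNorm J = z)
    (h : Ideal.span {ξ} = I * J ^ k) (δ : 𝓞 K) (hδ : δ ∈ J) (hδ0 : δ ≠ 0) :
    ∃ (e : ℕ) (τ : 𝓞 K), 1 ≤ e ∧ (Algebra.norm ℤ δ).natAbs = z * e ∧ τ ∈ I ∧ τ ≠ 0 ∧
      (Algebra.norm ℤ τ).natAbs = e ^ k * c ∧ (e : 𝓞 K) ^ k * ξ = δ ^ k * τ := by
  obtain ⟨E, hE⟩ := Ideal.dvd_span_singleton.2 hδ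
  have hN : (Algebra.norm ℤ δ).natAbs = z * Ideal.absNorm E := by
    rw [← Ideal.absNorm_span_singleton, hE, map_mul, hJ]
  have he : 1 ≤ Ideal.absNorm E := by
    rw [Nat.one_le_iff_ne_zero]
    intro h0
    rw [h0, mul_zero, Int.natAbs_eq_zero, Algebra.norm_eq_zero_iff] at hN
    exact hδ0 hN
  obtain ⟨F, hF⟩ := Ideal.dvd_span_singleton.2 (Ideal.absNorm_mem E)
  have hNF : Ideal.absNorm F = Ideal.absNorm E := by
    have h1 := congrArg Ideal.absNorm hF
    rw [Ideal.absNorm_span_natCast, map_mul, RingOfIntegers.rank, hd, pow_two] at h1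
    exact (Nat.eq_of_mul_eq_mul_left he h1).symm
  have h1 : Ideal.span {(Ideal.absNorm E : 𝓞 K) ^ k * ξ} = Ideal.span {δ ^ k} * (I * F ^ k) := by
    rw [← Ideal.span_singleton_mul_span_singleton, ← Ideal.span_singleton_pow,
      ← Ideal.span_singleton_pow, hF, hE, h]
    ring
  have h2 : δ ^ k ∣ (Ideal.absNorm E : 𝓞 K) ^ k * ξ := by
    rw [← Ideal.mem_span_singleton, ← Ideal.dvd_span_singleton, h1]
    exact Dvd.intro _ rfl
  obtain ⟨τ, hτ⟩ := h2
  have h3 : Ideal.span {τ} = I * F ^ k := by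
    have h4 : Ideal.span {δ ^ k} ≠ 0 := by
      rw [Ne, Ideal.zero_eq_bot, Ideal.span_singleton_eq_bot]
      exact pow_ne_zero _ hδ0
    apply mul_left_cancel₀ h4
    rw [Ideal.span_singleton_mul_span_singleton, ← hτ, h1]
  have h5 : (Algebra.norm ℤ τ).natAbs = Ideal.absNorm E ^ k * c := by
    rw [← Ideal.absNorm_span_singleton, h3, map_mul, map_pow, hI, hNF, mul_comm]
  refine ⟨Ideal.absNorm E, τ, he, hN, ?_, ?_, h5, hτ⟩
  · rw [← Ideal.dvd_span_singleton, h3]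
    exact Dvd.intro _ rfl
  · rintro rfl
    rw [Algebra.norm_zero, Int.natAbs_zero] at h5
    have : 0 < Ideal.absNorm E ^ k * c := by positivity
    omega

/-- analytic part -/
lemma size2 (hd : Module.finrank ℚ K = 2) {C1 : ℝ} (_hC1 : 1 ≤ C1) {z e : ℕ} (hz : 1 ≤ z)
    (he : 1 ≤ e) (δ : 𝓞 K) (hN : (Algebra.norm ℤ δ).natAbs = z * e)
    (hσ : ∀ σ : K →+* ℂ, ‖σ (δ : K)‖ ≤ C1 * Real.sqrt z) :
    (e : ℝ) ≤ C1 ^ 2 ∧ ∀ σ : K →+* ℂ, 1 ≤ C1 * ‖σ (δ : K)‖ := by
  classical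
  have hz' : (1 : ℝ) ≤ z := by exact_mod_cast hz
  have he' : (1 : ℝ) ≤ e := by exact_mod_cast he
  set w : ℝ := Real.sqrt z with hw
  have hw1 : 1 ≤ w := Real.one_le_sqrt.2 hz'
  have hw3 : w ^ 2 = z := Real.sq_sqrt (by positivity)
  have hP : ∏ σ : K →+* ℂ, ‖σ (δ : K)‖ = z * e := by
    rw [prodN, hN]
    push_cast
    rfl
  constructor
  · have h1 : ∏ σ : K →+* ℂ, ‖σ (δ : K)‖ ≤ ∏ _σ : K →+* ℂ, (C1 * w) :=
      Finset.prod_le_prod (fun _ _ => norm_nonneg _) (fun σ _ => hσ σ)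
    rw [Finset.prod_const, card_emb2 hd, hP, mul_pow, hw3] at h1
    nlinarith
  · intro σ
    have h1 : ∏ σ' ∈ Finset.univ.erase σ, ‖σ' (δ : K)‖ ≤ ∏ _σ' ∈ Finset.univ.erase σ, (C1 * w) :=
      Finset.prod_le_prod (fun _ _ => norm_nonneg _) (fun σ _ => hσ σ)
    rw [Finset.prod_const, Finset.card_erase_of_mem (Finset.mem_univ _), card_emb2 hd] at h1
    rw [← Finset.mul_prod_erase Finset.univ _ (Finset.mem_univ σ)] at hP
    have h2 : w ^ 2 ≤ ‖σ (δ : K)‖ * (C1 * w) := by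
      calc w ^ 2 = z := hw3
        _ ≤ z * e := by nlinarith
        _ = _ := hP.symm
        _ ≤ _ := by
          have := mul_le_mul_of_nonneg_left h1 (norm_nonneg (σ (δ : K)))
          simpa using this
    have h3 : w * w ≤ w * (C1 * ‖σ (δ : K)‖) := by
      calc w * w = w ^ 2 := by ring
        _ ≤ _ := h2
        _ = _ := by ring
    exact hw1.trans (le_of_mul_le_mul_left h3 (by positivity))

lemma exLam (hd : Module.finrank ℚ K = 2) (ρ : K) (hρ : ∀ x : ℚ, ρ ≠ algebraMap ℚ K x) (r : ℚ) :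
    ∃ Λ : K →ₗ[ℚ] ℚ, Λ 1 = 1 ∧ Λ ρ = r := by
  have hli : LinearIndependent ℚ ![(1 : K), ρ] := by
    rw [LinearIndependent.pair_iff]
    intro s t h
    by_cases ht : t = 0
    · subst ht
      simp only [zero_smul, add_zero, smul_eq_zero, one_ne_zero, or_false] at h
      exact ⟨h, rfl⟩
    · exfalso
      apply hρ (-(s / t))
      have ht' : (t : K) ≠ 0 := by exact_mod_cast ht
      rw [Algebra.smul_def, Algebra.smul_def] at h
      simp only [eq_ratCast, mul_one] at h ⊢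
      push_cast
      field_simp
      linear_combination h
  let b := basisOfLinearIndependentOfCardEqFinrank hli (by simp [hd])
  refine ⟨b.constr ℚ ![1, r], ?_, ?_⟩
  · have h0 : b 0 = 1 := by simp [b]
    have := b.constr_basis ℚ ![1, r] 0
    rw [h0] at this
    simpa using this
  · have h0 : b 1 = ρ := by simp [b]
    have := b.constr_basis ℚ ![1, r] 1
    rw [h0] at this
    simpa using this

lemma sum_sqrt (N : ℕ) : ∑ n ∈ Icc 1 N, (1 / Real.sqrt n) ≤ 2 * Real.sqrt N := by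
  induction N with
  | zero => simp
  | succ N ih =>
    rw [Finset.sum_Icc_succ_top (by omega)]
    have hb : 0 < Real.sqrt ((N + 1 : ℕ) : ℝ) := Real.sqrt_pos.2 (by positivity)
    have hab : Real.sqrt (N : ℝ) ≤ Real.sqrt ((N + 1 : ℕ) : ℝ) :=
      Real.sqrt_le_sqrt (by push_cast; linarith)
    have ha : 0 ≤ Real.sqrt (N : ℝ) := Real.sqrt_nonneg _
    have h2 : Real.sqrt ((N + 1 : ℕ) : ℝ) ^ 2 = N + 1 := by
      rw [Real.sq_sqrt (by positivity)]; push_cast; ring
    have h3 : Real.sqrt (N : ℝ) ^ 2 = N := Real.sq_sqrt (by positivity)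
    have h4 : 1 / Real.sqrt ((N + 1 : ℕ) : ℝ)
        ≤ 2 * Real.sqrt ((N + 1 : ℕ) : ℝ) - 2 * Real.sqrt (N : ℝ) := by
      rw [div_le_iff₀ hb]
      nlinarith
    linarith

lemma card_le_sum {α : Type*} (S : Finset α) (z1 : α → ℕ) (N : ℕ)
    (h : ∀ x ∈ S, z1 x ∈ Icc 1 N) (g : ℕ → ℝ)
    (hg : ∀ n ∈ Icc 1 N, ((S.filter (fun x => z1 x = n)).card : ℝ) ≤ g n) :
    (S.card : ℝ) ≤ ∑ n ∈ Icc 1 N, g n := by
  rw [Finset.card_eq_sum_card_fiberwise (f := z1) (t := Icc 1 N) h]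
  push_cast
  exact Finset.sum_le_sum hg

/-- splitting of the value -/
lemma split {ℓ q z c k : ℕ} (hk : 1 ≤ k) (hz : 1 ≤ z) (hzc : Nat.Coprime z c)
    (h : ℓ * q = c * z ^ k) (hcop : ∀ p : ℕ, p.Prime → p ∣ ℓ → p ∣ q → p ∣ z → False) :
    ∃ z1 z2 c1 c2 : ℕ, z1 * z2 = z ∧ c1 * c2 = c ∧ ℓ = c1 * z1 ^ k ∧ q = c2 * z2 ^ k := by
  have hab : Nat.Coprime (Nat.gcd ℓ (z ^ k)) (Nat.gcd q (z ^ k)) := by
    apply Nat.coprime_of_dvd
    intro p hp h1 h2
    refine hcop p hp (h1.trans (Nat.gcd_dvd_left _ _)) (h2.trans (Nat.gcd_dvd_left _ _)) ?_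
    exact hp.dvd_of_dvd_pow (h1.trans (Nat.gcd_dvd_right _ _))
  have hmul : Nat.gcd ℓ (z ^ k) * Nat.gcd q (z ^ k) = z ^ k := by
    apply Nat.dvd_antisymm
    · exact hab.mul_dvd_of_dvd_of_dvd (Nat.gcd_dvd_right _ _) (Nat.gcd_dvd_right _ _)
    · have h1 : Nat.gcd (z ^ k) (ℓ * q) = z ^ k := by
        apply Nat.gcd_eq_left
        rw [h]
        exact Dvd.intro_left _ rfl
      have h2 := Nat.gcd_mul_right_dvd_mul_gcd (z ^ k) ℓ q
      rw [h1, Nat.gcd_comm (z ^ k) ℓ, Nat.gcd_comm (z ^ k) q] at h2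
      exact h2
  obtain ⟨z1, hz1⟩ := exists_eq_pow_of_mul_eq_pow (a := Nat.gcd ℓ (z ^ k))
    (b := Nat.gcd q (z ^ k)) (by
      rw [Nat.isUnit_iff]; exact hab) hmul
  obtain ⟨z2, hz2⟩ := exists_eq_pow_of_mul_eq_pow (a := Nat.gcd q (z ^ k))
    (b := Nat.gcd ℓ (z ^ k)) (c := z) (k := k) (by
      rw [Nat.isUnit_iff]; exact hab.symm) (by rw [mul_comm]; exact hmul)
  have hz12 : z1 * z2 = z := by
    have : (z1 * z2) ^ k = z ^ k := by rw [mul_pow, ← hz1, ← hz2, hmul]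
    exact (Nat.pow_left_injective (by omega : k ≠ 0)) this
  obtain ⟨c1, hc1⟩ := Nat.gcd_dvd_left ℓ (z ^ k)
  obtain ⟨c2, hc2⟩ := Nat.gcd_dvd_left q (z ^ k)
  rw [hz1] at hc1
  rw [hz2] at hc2
  refine ⟨z1, z2, c1, c2, hz12, ?_, ?_, ?_⟩
  · have h3 : (c1 * c2) * z ^ k = c * z ^ k := by
      rw [← h]
      conv_rhs => rw [hc1, hc2]
      rw [← hz12, mul_pow]; ring
    exact Nat.eq_of_mul_eq_mul_right (by positivity) h3
  · rw [mul_comm]; exact hc1
  · rw [mul_comm]; exact hc2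


theorem t_BQ (hQ : S_QFAC) (h1 : S_DIVS) (h2 : S_TAU) (h3 : S_MINK) (h4 : S_SZC) (h5 : S_BOX) :
    S_BQ := by
  classical
  intro K _ _ ρ r A hquad
  obtain ⟨i0, hi0, hnrm, hfac⟩ := hQ K ρ r A hquad
  obtain ⟨hd, hirr, hrel0⟩ := hquad
  -- the value 3 r^2 - A is nonzero
  have hm : 3 * r ^ 2 - A ≠ 0 := by
    intro h0
    have hA : A = 3 * r ^ 2 := by omega
    have hK : ((ρ : K) - r) * ((ρ : K) + 2 * r) = 0 := by
      have := congrArg (fun x : 𝓞 K => (x : K)) hrel0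
      simp at this
      rw [hA] at this
      push_cast at this
      linear_combination this
    rcases mul_eq_zero.1 hK with h | h
    · apply hirr (r : ℚ)
      simp
      linear_combination h
    · apply hirr (-2 * r : ℚ)
      simp
      linear_combination h
  refine ⟨i0 * (3 * r ^ 2 - A).natAbs, ?_, ?_⟩
  · have := Int.natAbs_pos.2 hm
    exact Nat.mul_pos hi0 this
  intro k ε hk hε
  obtain ⟨C1, hC1, hmink⟩ := h3 K
  obtain ⟨Λ, hΛ1, hΛρ⟩ := exLam hd (ρ : K) hirr (r : ℚ)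
  have hΛ : ∀ u v : ℤ, Λ ((u : K) - v * (ρ : K)) = (u - r * v : ℤ) := by
    intro u v
    have e1 : (u : K) = (u : ℚ) • (1 : K) := by rw [Algebra.smul_def]; simp
    have e2 : (v : K) * (ρ : K) = (v : ℚ) • (ρ : K) := by rw [Algebra.smul_def]; simp
    rw [map_sub, e1, e2, map_smul, map_smul, hΛ1, hΛρ]
    push_cast
    simp
    ring
  have hΛ0 : Λ ≠ 0 := by
    intro h
    rw [h] at hΛ1
    simp at hΛ1
  let Mr : ℝ := ∑ σ : K →+* ℂ, ‖σ (ρ : K)‖
  have hMr : ∀ σ : K →+* ℂ, ‖σ (ρ : K)‖ ≤ Mr := fun σ =>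
    Finset.single_le_sum (f := fun σ : K →+* ℂ => ‖σ (ρ : K)‖) (fun _ _ => norm_nonneg _)
      (Finset.mem_univ σ)
  have hMr0 : 0 ≤ Mr := Finset.sum_nonneg fun _ _ => norm_nonneg _
  let E : ℕ := ⌊C1 ^ 2⌋₊
  have hE1 : 1 ≤ E := Nat.le_floor (by
    push_cast
    exact one_le_pow₀ hC1)
  have hE1' : (1 : ℝ) ≤ E := by exact_mod_cast hE1
  let C2 : ℝ := (E : ℝ) ^ k
  have hC2 : 0 < C2 := by positivity
  let C3 : ℝ := (E : ℝ) ^ k * (1 + Mr) * C1 ^ k
  have hC3 : 1 ≤ C3 := by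
    have a1 : (1 : ℝ) ≤ (E : ℝ) ^ k := one_le_pow₀ hE1'
    have a2 : (1 : ℝ) ≤ C1 ^ k := one_le_pow₀ hC1
    have a3 : (1 : ℝ) ≤ (E : ℝ) ^ k * (1 + Mr) := by nlinarith
    nlinarith
  obtain ⟨D1, hD1, hdivs⟩ := h1 K ε hε
  obtain ⟨D2, hD2, htau⟩ := h2 K C2 ε hC2 hε
  obtain ⟨D4, hD4, hsz⟩ := h4 K k hk
  obtain ⟨D5, hD5, hbox⟩ := h5 K
  refine ⟨D1 * (E * (D2 * C3 ^ ε * (2 * (D5 * C1 ^ 2 + 2 * D4 * C1)))), by positivity, ?_⟩
  intro Y Z hY hZ c hc s hs
  have core : ∀ p : ℤ × ℤ, p ∈ s → ∃ (I : Ideal (𝓞 K)) (e z1 z2 : ℕ) (τ δ : 𝓞 K),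
      1 ≤ Ideal.absNorm I ∧ Ideal.absNorm I ∣ c ∧ 1 ≤ e ∧ e ≤ E ∧ τ ∈ I ∧ τ ≠ 0 ∧
      ((Algebra.norm ℤ τ).natAbs : ℝ) ≤ C2 * (Ideal.absNorm I : ℝ) ∧
      (∀ σ : K →+* ℂ, ‖σ (τ : K)‖ ≤ C3 * Y) ∧
      1 ≤ z1 ∧ 1 ≤ z2 ∧ (z1 : ℝ) * z2 ≤ Z ∧
      (∀ σ : K →+* ℂ, ‖σ (δ : K)‖ ≤ C1 * Real.sqrt z2) ∧
      Λ ((τ : K) * (δ : K) ^ k) = (e : ℚ) ^ k * ((p.1 - r * p.2 : ℤ) : ℚ) ∧
      (p.1 - r * p.2).natAbs = c / Ideal.absNorm I * z1 ^ k ∧
      (e : 𝓞 K) ^ k * ((p.1 : 𝓞 K) - p.2 * ρ) = δ ^ k * τ ∧ δ ≠ 0 := by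
    rintro ⟨u, v⟩ hp
    obtain ⟨hcop, hu, hv, z, hz, hzZ, hzc, hG⟩ := hs _ hp
    dsimp only at hcop hu hv hG ⊢
    have hGf : G A (r ^ 3 - A * r) u v
        = (u - r * v) * (u ^ 2 + r * u * v + (r ^ 2 - A) * v ^ 2) := by
      unfold G; ring
    rw [hGf, Int.natAbs_mul] at hG
    have hzc' : Nat.Coprime z c := Nat.Coprime.coprime_dvd_right (Dvd.intro_left _ rfl) hzc
    have hzi : Nat.Coprime z (i0 * (3 * r ^ 2 - A).natAbs) :=
      Nat.Coprime.coprime_dvd_right (Dvd.intro _ rfl) hzc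
    have hnocom : ∀ p : ℕ, p.Prime → p ∣ (u - r * v).natAbs →
        p ∣ (u ^ 2 + r * u * v + (r ^ 2 - A) * v ^ 2).natAbs → p ∣ z → False := by
      intro p hp h1 h2 h3
      have h1' : (p : ℤ) ∣ u - r * v := Int.natCast_dvd.2 h1
      have h2' : (p : ℤ) ∣ u ^ 2 + r * u * v + (r ^ 2 - A) * v ^ 2 := Int.natCast_dvd.2 h2
      have hpi : ¬ (p : ℤ) ∣ (3 * r ^ 2 - A) := by
        intro h4
        have h5 : p ∣ (3 * r ^ 2 - A).natAbs := Int.natCast_dvd.1 h4
        have h6 : p ∣ i0 * (3 * r ^ 2 - A).natAbs := Dvd.dvd.mul_left h5 _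
        exact Nat.not_coprime_of_dvd_of_dvd hp.one_lt h3 h6 hzi
      have h7 : (p : ℤ) ∣ (3 * r ^ 2 - A) * v ^ 2 := by
        have : (3 * r ^ 2 - A) * v ^ 2
            = (u ^ 2 + r * u * v + (r ^ 2 - A) * v ^ 2) - (u - r * v) * (u + 2 * r * v) := by ring
        rw [this]
        exact dvd_sub h2' (Dvd.dvd.mul_right h1' _)
      have hpp : Prime (p : ℤ) := Nat.prime_iff_prime_int.1 hp
      have h8 : (p : ℤ) ∣ v := by
        rcases hpp.dvd_or_dvd h7 with h | h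
        · exact absurd h hpi
        · exact hpp.dvd_of_dvd_pow h
      have h9 : (p : ℤ) ∣ u := by
        have : u = (u - r * v) + r * v := by ring
        rw [this]
        exact dvd_add h1' (Dvd.dvd.mul_left h8 _)
      have := hcop.isUnit_of_dvd' h9 h8
      exact hpp.not_unit this
    obtain ⟨z1, z2, c1, c2, hz12, hc12, hℓ, hq⟩ := split hk hz hzc' hG hnocom
    have hz1 : 1 ≤ z1 := by
      rcases Nat.eq_zero_or_pos z1 with h | h
      · rw [h, zero_mul] at hz12; omega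
      · exact h
    have hz2 : 1 ≤ z2 := by
      rcases Nat.eq_zero_or_pos z2 with h | h
      · rw [h, mul_zero] at hz12; omega
      · exact h
    have hc2 : 1 ≤ c2 := by
      rcases Nat.eq_zero_or_pos c2 with h | h
      · rw [h, mul_zero] at hc12; omega
      · exact h
    have hcop2 : Nat.Coprime z2 (i0 * c2) := by
      apply Nat.Coprime.coprime_dvd_left (Dvd.intro_left _ hz12)
      apply Nat.Coprime.coprime_dvd_right _ hzc
      exact mul_dvd_mul (Dvd.intro _ rfl) (Dvd.intro_left _ hc12)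
    obtain ⟨I, J, hI', hJ, hIJ⟩ := hfac u v c2 z2 k hcop hc2 hz2 hk hcop2 hq
    have hJ0 : J ≠ ⊥ := by
      rintro rfl
      rw [Ideal.absNorm_bot] at hJ
      omega
    obtain ⟨δ, hδ, hδ0, hδσ⟩ := hmink J hJ0
    rw [hJ, hd] at hδσ
    have hδσ' : ∀ σ : K →+* ℂ, ‖σ (δ : K)‖ ≤ C1 * Real.sqrt z2 := by
      intro σ
      rw [Real.sqrt_eq_rpow]
      exact_mod_cast hδσ σ
    obtain ⟨e, τ, he, hNδ, hτ, hτ0, hNτ, hrel⟩ := alg2 hd hc2 I J hI' hJ hIJ δ hδ hδ0
    obtain ⟨he3, hlow⟩ := size2 hd hC1 hz2 he δ hNδ hδσ'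
    have heE : e ≤ E := Nat.le_floor he3
    have heE' : (e : ℝ) ≤ E := by exact_mod_cast heE
    have he' : (1 : ℝ) ≤ e := by exact_mod_cast he
    have hrelK : (e : K) ^ k * ((u : K) - v * (ρ : K)) = (δ : K) ^ k * (τ : K) := by
      have := congrArg (fun x : 𝓞 K => (x : K)) hrel
      simpa using this
    refine ⟨I, e, z1, z2, τ, δ, by rw [hI']; exact hc2, by rw [hI']; exact Dvd.intro_left _ hc12,
      he, heE, hτ, hτ0, ?_, ?_, hz1, hz2, ?_, hδσ', ?_, ?_, hrel, hδ0⟩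
    · rw [hNτ, hI']
      push_cast
      exact mul_le_mul_of_nonneg_right (pow_le_pow_left₀ (by positivity) heE' _) (by positivity)
    · intro σ
      have g1 := congrArg (fun x => ‖σ x‖) hrelK
      simp only [map_mul, map_pow, norm_mul, norm_pow, map_natCast, Complex.norm_natCast] at g1
      have g2 : ‖σ ((u : K) - v * (ρ : K))‖ ≤ (1 + Mr) * Y := by
        rw [map_sub, map_mul, map_intCast, map_intCast]
        refine (norm_sub_le _ _).trans ?_
        rw [norm_mul, Complex.norm_intCast, Complex.norm_intCast]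
        have := mul_le_mul hv (hMr σ) (norm_nonneg _) (by linarith)
        nlinarith
      have g3 : (1 : ℝ) ≤ C1 ^ k * ‖σ (δ : K)‖ ^ k := by
        rw [← mul_pow]
        exact one_le_pow₀ (hlow σ)
      calc ‖σ (τ : K)‖ ≤ ‖σ (τ : K)‖ * (C1 ^ k * ‖σ (δ : K)‖ ^ k) :=
            le_mul_of_one_le_right (norm_nonneg _) g3
        _ = C1 ^ k * (‖σ (δ : K)‖ ^ k * ‖σ (τ : K)‖) := by ring
        _ = C1 ^ k * ((e : ℝ) ^ k * ‖σ ((u : K) - v * (ρ : K))‖) := by rw [g1]
        _ ≤ C1 ^ k * ((E : ℝ) ^ k * ((1 + Mr) * Y)) := by gcongr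
        _ = C3 * Y := by
          simp only [C3]
          ring
    · have : ((z1 : ℝ) * z2) = z := by exact_mod_cast hz12
      rw [this]
      exact hzZ
    · rw [mul_comm, ← hrelK]
      have : (e : K) ^ k * ((u : K) - v * (ρ : K)) = ((e : ℚ) ^ k) • ((u : K) - v * (ρ : K)) := by
        rw [Algebra.smul_def]
        push_cast
        simp
      rw [this, map_smul, hΛ, smul_eq_mul]
    · rw [hI', hℓ]
      congr 1
      rw [← hc12]
      exact (Nat.mul_div_cancel _ hc2).symm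
  choose! I e z1 z2 τ δ hcore using core
  have hinj : ∀ p ∈ s, ∀ p' ∈ s, e p = e p' → τ p = τ p' → δ p = δ p' → p = p' := by
    rintro ⟨u, v⟩ hp ⟨u', v'⟩ hp' he hτ hδ
    have a1 := (hcore _ hp).2.2.2.2.2.2.2.2.2.2.2.2.2.2.1
    have a2 := (hcore _ hp').2.2.2.2.2.2.2.2.2.2.2.2.2.2.1
    rw [he, hτ, hδ, ← a2] at a1
    have h0 : ((e (u', v') : ℕ) : 𝓞 K) ^ k ≠ 0 := by
      have := (hcore _ hp').2.2.1
      exact pow_ne_zero _ (by exact_mod_cast (by omega : e (u', v') ≠ 0))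
    have a3 := mul_left_cancel₀ h0 a1
    have a4 : ((u : K) - v * (ρ : K)) = (u' : K) - v' * (ρ : K) := by
      have := congrArg (fun x : 𝓞 K => (x : K)) a3
      simpa using this
    have hv : v = v' := by
      by_contra hne
      apply hirr (((u : ℚ) - u') / ((v : ℚ) - v'))
      have hne' : ((v : K) - v') ≠ 0 := by
        rw [sub_ne_zero]
        exact_mod_cast hne
      have : (ρ : K) = ((u : K) - u') / ((v : K) - v') := by
        rw [eq_div_iff hne']
        linear_combination -a4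
      rw [this]
      push_cast
      simp
    subst hv
    have hu : u = u' := by
      have a5 : (u : K) = u' := by linear_combination a4
      exact_mod_cast a5
    rw [hu]
  -- the cube root of Z
  set w : ℝ := Z ^ ((1 : ℝ) / 3) with hw
  have hw1 : 1 ≤ w := Real.one_le_rpow hZ (by norm_num)
  have hw0 : 0 < w := by linarith
  have hw3 : w ^ 3 = Z := by
    rw [hw, ← Real.rpow_natCast, ← Real.rpow_mul (by positivity)]
    norm_num
  have hw2 : w ^ 2 = Z ^ ((2 : ℝ) / 3) := by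
    rw [hw, ← Real.rpow_natCast, ← Real.rpow_mul (by positivity)]
    norm_num
  have hT : 1 ≤ C3 * Y := by nlinarith
  have hC0 : 0 < C1 := by linarith
  -- the last fibres
  have last : ∀ (I0 : Ideal (𝓞 K)) (e0 : ℕ) (τ0 : 𝓞 K) (b0 : Bool) (S : Finset (ℤ × ℤ)),
      (∀ p ∈ S, p ∈ s ∧ I p = I0 ∧ e p = e0 ∧ τ p = τ0 ∧ decide (0 ≤ p.1 - r * p.2) = b0) →
      (S.card : ℝ) ≤ (D5 * C1 ^ 2 + 2 * D4 * C1) * w ^ 2 := by
    intro I0 e0 τ0 b0 S hS
    have hcard : ∀ T ⊆ S, (T.image δ).card = T.card := by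
      intro T hT
      apply Finset.card_image_of_injOn
      intro p hp p' hp' hδ
      obtain ⟨b1, _, b2, b3, _⟩ := hS p (hT hp)
      obtain ⟨b1', _, b2', b3', _⟩ := hS p' (hT hp')
      exact hinj p b1 p' b1' (b2.trans b2'.symm) (b3.trans b3'.symm) hδ
    have hsplit := Finset.card_filter_add_card_filter_not (s := S) (fun p => z2 p ≤ z1 p ^ 2)
    have hA1 : ((S.filter (fun p => z2 p ≤ z1 p ^ 2)).card : ℝ) ≤ D5 * C1 ^ 2 * w ^ 2 := by
      rw [← hcard _ (Finset.filter_subset _ _)]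
      have := hbox (C1 * w) (by nlinarith) ((S.filter (fun p => z2 p ≤ z1 p ^ 2)).image δ) ?_
      · rw [hd, mul_pow] at this
        rw [mul_assoc]
        exact this
      · intro δ0 hδ0 σ
        obtain ⟨p, hp, rfl⟩ := Finset.mem_image.1 hδ0
        obtain ⟨hpS, hpz⟩ := Finset.mem_filter.1 hp
        have hc' := hcore p (hS p hpS).1
        have hσ := hc'.2.2.2.2.2.2.2.2.2.2.2.1 σ
        have hzz := hc'.2.2.2.2.2.2.2.2.2.2.1
        refine hσ.trans (mul_le_mul_of_nonneg_left ?_ hC0.le)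
        have hy0 : 0 ≤ Real.sqrt (z2 p) := Real.sqrt_nonneg _
        have hy2 : Real.sqrt (z2 p) ^ 2 = z2 p := Real.sq_sqrt (by positivity)
        have hy1 : Real.sqrt (z2 p) ≤ z1 p := by
          rw [Real.sqrt_le_left (by positivity)]
          exact_mod_cast hpz
        have h3 : Real.sqrt (z2 p) ^ 3 ≤ w ^ 3 := by
          rw [hw3]
          refine le_trans ?_ hzz
          calc Real.sqrt (z2 p) ^ 3 = Real.sqrt (z2 p) * Real.sqrt (z2 p) ^ 2 := by ring
            _ = Real.sqrt (z2 p) * z2 p := by rw [hy2]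
            _ ≤ _ := mul_le_mul_of_nonneg_right hy1 (by positivity)
        exact le_of_pow_le_pow_left₀ (by norm_num) hw0.le h3
    have hB1 : ((S.filter (fun p => ¬ z2 p ≤ z1 p ^ 2)).card : ℝ) ≤ 2 * D4 * C1 * w ^ 2 := by
      set T := S.filter (fun p => ¬ z2 p ≤ z1 p ^ 2) with hTdef
      have hTS : T ⊆ S := Finset.filter_subset _ _
      rcases T.eq_empty_or_nonempty with hTe | hTne
      · rw [hTe, Finset.card_empty]
        push_cast
        positivity
      have hτ0 : (τ0 : K) ≠ 0 := by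
        obtain ⟨p, hp⟩ := hTne
        obtain ⟨b1, _, _, b3, _⟩ := hS p (hTS hp)
        have := (hcore p b1).2.2.2.2.2.1
        rw [b3] at this
        exact_mod_cast this
      have hz1w : ∀ p ∈ T, (z1 p : ℝ) ≤ w ∧ 1 ≤ z1 p := by
        intro p hp
        have hc' := hcore p (hS p (hTS hp)).1
        have hzz := hc'.2.2.2.2.2.2.2.2.2.2.1
        have hz1 := hc'.2.2.2.2.2.2.2.2.1
        have hlt : z1 p ^ 2 < z2 p := by
          have := (Finset.mem_filter.1 hp).2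
          omega
        have hlt' : (z1 p : ℝ) ^ 2 ≤ z2 p := by exact_mod_cast hlt.le
        refine ⟨?_, hz1⟩
        have h3 : (z1 p : ℝ) ^ 3 ≤ w ^ 3 := by
          rw [hw3]
          refine le_trans ?_ hzz
          calc (z1 p : ℝ) ^ 3 = z1 p * (z1 p : ℝ) ^ 2 := by ring
            _ ≤ _ := mul_le_mul_of_nonneg_left hlt' (by positivity)
        exact le_of_pow_le_pow_left₀ (by norm_num) hw0.le h3
      have hfib := card_le_sum T z1 ⌊w⌋₊ (fun p hp => by
          obtain ⟨a1, a2⟩ := hz1w p hp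
          exact Finset.mem_Icc.2 ⟨a2, Nat.le_floor a1⟩)
        (fun n => D4 * (C1 * Real.sqrt Z) * (1 / Real.sqrt n)) (by
          intro n hn
          obtain ⟨hn1, hn2⟩ := Finset.mem_Icc.1 hn
          have hn1' : (1 : ℝ) ≤ n := by exact_mod_cast hn1
          have hn2' : (n : ℝ) ≤ w := (Nat.le_floor_iff hw0.le).1 hn2
          have hnZ : (1 : ℝ) ≤ Z / n := by
            rw [le_div_iff₀ (by linarith), one_mul]
            rw [← hw3]
            nlinarith [sq_nonneg w, sq_nonneg (w - 1)]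
          rw [← hcard _ ((Finset.filter_subset _ _).trans hTS)]
          have := hsz Λ (τ0 : K)
            ((e0 : ℚ) ^ k * ((if b0 then 1 else -1) * ((c / Ideal.absNorm I0 * n ^ k : ℕ) : ℚ)))
            hΛ0 hτ0 (C1 * Real.sqrt (Z / n)) (by
              have := Real.one_le_sqrt.2 hnZ
              nlinarith) ((T.filter (fun x => z1 x = n)).image δ) ?_
          · rw [hd] at this
            refine this.trans (le_of_eq ?_)
            have h1 : Real.sqrt (Z / n) = Real.sqrt Z * (1 / Real.sqrt n) := by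
              rw [Real.sqrt_div (by linarith)]
              ring
            rw [h1]
            norm_num
            ring
          · intro δ0 hδ0
            obtain ⟨p, hp, rfl⟩ := Finset.mem_image.1 hδ0
            obtain ⟨hpT, hpn⟩ := Finset.mem_filter.1 hp
            obtain ⟨b1, b2, b3, b4, b5⟩ := hS p (hTS hpT)
            have hc' := hcore p b1
            have hzz := hc'.2.2.2.2.2.2.2.2.2.2.1
            constructor
            · have h1 := hc'.2.2.2.2.2.2.2.2.2.2.2.2.1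
              have h2 := hc'.2.2.2.2.2.2.2.2.2.2.2.2.2.1
              rw [b4, b3] at h1
              rw [h1, ← hpn, ← b2, ← h2]
              congr 1
              by_cases hsg : 0 ≤ p.1 - r * p.2
              · have hb : b0 = true := by rw [← b5]; simpa using hsg
                rw [hb]
                simp only [if_true, one_mul]
                rw [Nat.cast_natAbs, abs_of_nonneg hsg]
              · have hb : b0 = false := by rw [← b5]; simpa using hsg
                rw [hb]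
                simp only [Bool.false_eq_true, if_false]
                rw [Nat.cast_natAbs, abs_of_neg (by omega)]
                push_cast
                ring
            · intro σ
              have hσ := hc'.2.2.2.2.2.2.2.2.2.2.2.1 σ
              refine hσ.trans (mul_le_mul_of_nonneg_left ?_ hC0.le)
              apply Real.sqrt_le_sqrt
              rw [le_div_iff₀ (by linarith), ← hpn, mul_comm]
              exact hzz)
      refine hfib.trans ?_
      rw [← Finset.mul_sum]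
      have h1 := sum_sqrt ⌊w⌋₊
      have h2 : Real.sqrt (⌊w⌋₊ : ℝ) ≤ Real.sqrt w := Real.sqrt_le_sqrt (Nat.floor_le hw0.le)
      have h3 : Real.sqrt Z * Real.sqrt w = w ^ 2 := by
        rw [← Real.sqrt_mul (by linarith), ← hw3]
        have : w ^ 3 * w = (w ^ 2) ^ 2 := by ring
        rw [this, Real.sqrt_sq (by positivity)]
      calc D4 * (C1 * Real.sqrt Z) * ∑ n ∈ Icc 1 ⌊w⌋₊, (1 / Real.sqrt n)
          ≤ D4 * (C1 * Real.sqrt Z) * (2 * Real.sqrt w) := by
            apply mul_le_mul_of_nonneg_left (by linarith) (by positivity)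
        _ = 2 * D4 * C1 * (Real.sqrt Z * Real.sqrt w) := by ring
        _ = _ := by rw [h3]
    have : (S.card : ℝ) = ((S.filter (fun p => z2 p ≤ z1 p ^ 2)).card : ℝ)
        + ((S.filter (fun p => ¬ z2 p ≤ z1 p ^ 2)).card : ℝ) := by
      exact_mod_cast hsplit.symm
    rw [this]
    nlinarith
  have hb5 : 0 ≤ (D5 * C1 ^ 2 + 2 * D4 * C1) * w ^ 2 := by positivity
  have hb4 : 0 ≤ 2 * ((D5 * C1 ^ 2 + 2 * D4 * C1) * w ^ 2) := by positivity
  have hb3 : 0 ≤ D2 * (C3 * Y) ^ ε * (2 * ((D5 * C1 ^ 2 + 2 * D4 * C1) * w ^ 2)) := by positivity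
  have hb2 : 0 ≤ (E : ℝ) * (D2 * (C3 * Y) ^ ε *
      (2 * ((D5 * C1 ^ 2 + 2 * D4 * C1) * w ^ 2))) := by
    positivity
  have key : (s.card : ℝ) ≤ D1 * (c : ℝ) ^ ε *
      ((E : ℝ) * (D2 * (C3 * Y) ^ ε * (2 * ((D5 * C1 ^ 2 + 2 * D4 * C1) * w ^ 2)))) := by
    apply card_le_real I s _ _ hb2
    · intro J hJ
      obtain ⟨p0, hp0, rfl⟩ := Finset.mem_image.1 hJ
      apply card_le_real e _ _ _ hb3
      · intro e0 _
        apply card_le_real τ _ _ _ hb4
        · intro τ0 hτ0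
          apply card_le_real (fun p : ℤ × ℤ => decide (0 ≤ p.1 - r * p.2)) _ _ _ hb5
          · intro b0 _
            apply last (I p0) e0 τ0 b0
            intro p hp
            simp only [Finset.mem_filter] at hp
            exact ⟨hp.1.1.1.1, hp.1.1.1.2, hp.1.1.2, hp.1.2, hp.2⟩
          · have := Finset.card_le_univ (Finset.image (fun p : ℤ × ℤ => decide (0 ≤ p.1 - r * p.2))
              (Finset.filter (fun x => τ x = τ0) (Finset.filter (fun x => e x = e0)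
                (Finset.filter (fun x => I x = I p0) s))))
            rw [Fintype.card_bool] at this
            exact_mod_cast this
        · have hc0 := (hcore _ hp0).1
          apply htau (I p0) ?_ (C3 * Y) hT
          · intro τ0 hτ0
            obtain ⟨p, hp, rfl⟩ := Finset.mem_image.1 hτ0
            simp only [Finset.mem_filter] at hp
            have := hcore p hp.1.1
            rw [← hp.1.2]
            exact ⟨this.2.2.2.2.1, this.2.2.2.2.2.1, this.2.2.2.2.2.2.1, this.2.2.2.2.2.2.2.1⟩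
          · intro h0
            rw [h0, Ideal.absNorm_bot] at hc0
            omega
      · have hsub : ({x ∈ s | I x = I p0}.image e) ⊆ Finset.Icc 1 E := by
          intro e0 he0
          obtain ⟨p, hp, rfl⟩ := Finset.mem_image.1 he0
          have := hcore p (Finset.mem_filter.1 hp).1
          exact Finset.mem_Icc.2 ⟨this.2.2.1, this.2.2.2.1⟩
        have := Finset.card_le_card hsub
        rw [Nat.card_Icc, Nat.add_sub_cancel] at this
        exact_mod_cast this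
    · apply hdivs c hc
      intro J hJ
      obtain ⟨p, hp, rfl⟩ := Finset.mem_image.1 hJ
      rw [Ideal.dvd_span_singleton]
      obtain ⟨m, hm'⟩ := (hcore p hp).2.1
      have := Ideal.mul_mem_right ((m : ℕ) : 𝓞 K) _ (Ideal.absNorm_mem (I p))
      rw [hm']
      push_cast
      exact this
  refine key.trans (le_of_eq ?_)
  have hc0 : (0 : ℝ) ≤ c := by positivity
  have hY0 : 0 ≤ Y := by linarith
  have e1 : (Y * (c : ℝ)) ^ ε = Y ^ ε * (c : ℝ) ^ ε := Real.mul_rpow hY0 hc0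
  have e2 : (C3 * Y) ^ ε = C3 ^ ε * Y ^ ε := Real.mul_rpow (by linarith) hY0
  rw [e1, e2, ← hw2]
  ring

end Pool.Agent.W131.CD
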